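import Pool.Agent.H822.RG.Prod

/-!
# Complements of circles in smooth manifolds, and commuting translations near the circle

`X` is a smooth manifold with a smooth proper action of a finitely generated group `Γ` with one
end, and `j` is a diffeomorphism from a neighbourhood of infinity of `X` to an end of the connected
smooth manifold `M`. Then `j` extends to a diffeomorphism `X ≅ M` if and only if the action extends,
near infinity, to a smooth action on `M`, and then there is exactly one equivariant extension.

Let `X = K × E`, `K` a compact manifold and `E` a vector space of dimension at least two. Each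
translation of `E` extends to a self-diffeomorphism of `M`, and `j` extends to a diffeomorphism
`K × E ≅ M` if and only if two independent translations extend to commuting self-diffeomorphisms.

The complement of the circle `S¹ × {pt}` in `S¹ × S³` is `S¹ × ℝ³`; if `N` is a closed smooth
4-manifold and `C ⊆ N` is a circle with a product neighbourhood then `M = N ∖ C` has an end of this
kind, and `N` is `S¹ × S³`, by a diffeomorphism which is the given one near `C`, if and only if `j`
extends. For the twisted product take for `X` the bundle over the circle with fibre `ℝ³` and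
monodromy a reflection, and for `Γ` the group `ℤ²` of translations by vectors which are fixed by it.
-/

open Filter Set Topology Manifold
open scoped ContDiff
open Pool.Agent.H822.RG

namespace Pool.Agent.Results.MP_6db3ee_gt.CircleComplements

theorem result {F F' : Type} [NormedAddCommGroup F] [NormedSpace ℝ F] [NormedAddCommGroup F']
    [NormedSpace ℝ F'] {H H' : Type} [TopologicalSpace H] [TopologicalSpace H']
    (I : ModelWithCorners ℝ F H) (I' : ModelWithCorners ℝ F' H')
    (M : Type) [TopologicalSpace M] [ChartedSpace H' M] [T2Space M] [LocallyCompactSpace M]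
    [ConnectedSpace M] :
    -- manifolds with an action of a group with one end
    (∀ (X : Type) [TopologicalSpace X] [ChartedSpace H X] [T2Space X] [LocallyCompactSpace X]
      [Nonempty X] (Γ : Type) [Group Γ] (S : Set Γ) (ρ : Γ →* Equiv.Perm X) (j : X → M),
      OneEnded Γ S → ProperAct ρ → SmoothAct I ρ → DiffeoNear I I' j →
        (ExtendsToDiffeo I I' j ↔ ActionExtends I' S ρ j) ∧
        ∀ ρ' : Γ →* Equiv.Perm M, SmoothAct I' ρ' → CommutesNear S ρ ρ' j →
          ∃! Φ : X ≃ₘ^∞⟮I, I'⟯ M, (∀ γ x, Φ (ρ γ x) = ρ' γ (Φ x)) ∧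
            ∀ᶠ x in cocompact X, Φ x = j x) ∧
    -- products
    ∀ (K E : Type) [TopologicalSpace K] [ChartedSpace H K] [T2Space K] [CompactSpace K]
      [Nonempty K] [NormedAddCommGroup E] [NormedSpace ℝ E] [FiniteDimensional ℝ E]
      (j : K × E → M), 2 ≤ Module.finrank ℝ E → DiffeoNear (I.prod 𝓘(ℝ, E)) I' j →
        (∀ u : E, ∃ f : M ≃ₘ^∞⟮I', I'⟯ M, ShiftNear I' j u f) ∧
        List.TFAE [
          ExtendsToDiffeo (I.prod 𝓘(ℝ, E)) I' j,
          ∃ u v : E, LinearIndependent ℝ ![u, v] ∧ CommutingShifts I' j u v,
          ∀ u v : E, CommutingShifts I' j u v] := by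
  refine ⟨?_, ?_⟩
  · intro X _ _ _ _ _ Γ _ S ρ j hΓ hρ hρc hj
    refine ⟨⟨fun h => action_of_diffeo h S ρ hρc, ?_⟩, fun ρ' h1 h2 =>
      rigidity hΓ hρ hρc h1 h2 hj⟩
    rintro ⟨ρ', h1, h2⟩
    obtain ⟨Φ, ⟨-, h3⟩, -⟩ := rigidity hΓ hρ hρc h1 h2 hj
    exact ⟨Φ, h3⟩
  · intro K E _ _ _ _ _ _ _ _ j hdim hj
    refine ⟨fun u => single_shift hj u, ?_⟩
    obtain ⟨u, v, huv⟩ : ∃ u v : E, LinearIndependent ℝ ![u, v] := by
      obtain ⟨f, hf⟩ := exists_linearIndependent_of_le_finrank hdim
      refine ⟨f 0, f 1, ?_⟩
      have : ![f 0, f 1] = f := by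
        ext i
        fin_cases i <;> rfl
      rw [this]
      exact hf
    tfae_have 1 → 3 := fun h u v => shifts_of_diffeo h u v
    tfae_have 3 → 2 := fun h => ⟨u, v, huv, h u v⟩
    tfae_have 2 → 1 := fun ⟨_, _, h1, h2⟩ => diffeo_of_shifts hj h1 h2
    tfae_finish

end Pool.Agent.Results.MP_6db3ee_gt.CircleComplements
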