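import Pool.Agent.H827.HS.Conv

/-!
# Smooth 4-manifolds which become Euclidean after cutting along a 3-sphere

The standard `S¹ × S³` is the quotient of `ℝ⁴ ∖ {0} ≅ ℝ × S³` by the group generated by `z ↦ 2 z`,
and the twisted product is the quotient of `ℝ⁴ ∖ {0}` by the group generated by `z ↦ 2 ρ z`, where
`ρ` is the reflection `(z₀, z₁, z₂, z₃) ↦ (-z₀, z₁, z₂, z₃)` (the mapping torus of `ρ` on `S³`).

Let `M` be a closed smooth 4-manifold. We show that the following are equivalent:

* `M` is standard off one point: `M` is one of the two quotients (as a topological manifold), such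
  that the projection is a local diffeomorphism off the preimages of one point `p` of `M` (so `M` is
  homeomorphic to `S¹ × S³` or to the twisted product by a homeomorphism which is a diffeomorphism
  off one point);
* the same for every point `p` of `M`;
* there is a smoothly embedded 3-sphere `S` in `M` (with a collar) such that `M ∖ S` is connected
  and all compact subsets of `M ∖ S` have neighbourhoods which embed smoothly in `ℝ⁴`;
* there are nonseparating smoothly embedded 3-spheres in `M`, and for all of them all compact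
  subsets of the complement have neighbourhoods which embed smoothly in `ℝ⁴`.

So for a smooth manifold homeomorphic to `S¹ × S³` or to the twisted product, to be standard up to a
point (i.e. up to the insertion of a Schoenflies ball) is a property of the complement of a single
embedded sphere: no relation between the embeddings in `ℝ⁴` and the two ends of `M ∖ S` is assumed.
The embeddings of the compact pieces are not assumed to be compatible with each other.

Outline of the proof. Let `V = M ∖ S` with its two ends `S³ × (0, ∞)`. A compact core of `V`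
embeds in `ℝ⁴`. If we fill one of the ends by a ball we get a manifold whose compact subsets embed,
because a compact set can be moved off the ball, and drilling the ball out again along an embedded
small ball does not change the manifold; so (smooth Mazur-Brown theorem of the library) `V` with
both ends filled is `S⁴` off a point. Two disjoint cells in a connected manifold can be prescribed
up to isotopy and up to a reflection of one of them; we use Gauss elimination for matrices instead
of the connectedness of `GL⁺`. So `V` is the shell `λ⁻¹ < ‖z‖ < λ` off a point such that the ends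
are parametrised in the standard way or with a reflection, and `M` is obtained by gluing the ends.
Conversely, let `S` be a nonseparating sphere in a standard manifold. Each circle map on `M` is
homotopic to a multiple of the basic one `θ₀(z) = log₂ ‖z‖` (lift to the covering, which is simply
connected). The circle map dual to `S` is not a lift of a real function since it jumps at `S`, so it
is a multiple `k θ₀` with `k ≠ 0`, and since it is trivial off `S`, `k θ₀` and therefore `θ₀` lift to
`ℝ` on the connected set `M ∖ S`. This gives a section of the covering over `M ∖ S`.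
-/

set_option autoImplicit false

open Set Filter Topology Metric Function
open scoped Manifold ContDiff

noncomputable section

namespace Pool.Agent.Results.MP_6db3ee_gt.SphereComplement

/-- `ℝ⁴` -/
abbrev R4 : Type := EuclideanSpace ℝ (Fin 4)

section defs

variable {M N : Type} [TopologicalSpace M] [ChartedSpace R4 M] [TopologicalSpace N]
  [ChartedSpace R4 N]

/-- `f` is a local diffeomorphism (of class `C^∞`) at `x` -/
def LocDiff (f : M → N) (x : M) : Prop := IsLocalDiffeomorphAt (𝓡 4) (𝓡 4) ∞ f x

/-- a neighbourhood of `K` embeds smoothly in `ℝ⁴` -/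
def EmbedsNear (K : Set M) : Prop :=
  ∃ (U : Set M) (k : M → R4), IsOpen U ∧ K ⊆ U ∧ InjOn k U ∧ ∀ x ∈ U, LocDiff k x

/-- `e` is a smooth embedding of `ℝ⁴ ∖ {0} ≅ S³ × ℝ` (the value at `0` is irrelevant) -/
def IsCollar (e : R4 → M) : Prop :=
  (∀ u v, u ≠ 0 → v ≠ 0 → e u = e v → u = v) ∧ ∀ u, u ≠ 0 → LocDiff e u

/-- the smoothly embedded 3-sphere with the collar `e` -/
def sph (e : R4 → M) : Set M := e '' sphere 0 1

/-- the sphere with the collar `e` does not separate `M` -/
def NonSeparating (e : R4 → M) : Prop := IsCollar e ∧ IsConnected (sph e)ᶜ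

/-- all compact subsets of `A` have neighbourhoods which embed smoothly in `ℝ⁴` -/
def CompactsEmbed (A : Set M) : Prop := ∀ K : Set M, IsCompact K → K ⊆ A → EmbedsNear K

/-- `g` is the map `z ↦ 2 z` or the map `(z₀, z₁, z₂, z₃) ↦ (-2 z₀, 2 z₁, 2 z₂, 2 z₃)` -/
def IsGen (g : R4 → R4) : Prop :=
  (∀ z i, g z i = 2 * z i) ∨ ∀ z i, g z i = if i = 0 then -(2 * z i) else 2 * z i

/-- `π` is the quotient map of `ℝ⁴ ∖ {0}` by the group generated by `g` -/
def IsQuot (g : R4 → R4) (π : R4 → M) : Prop :=
  (∀ x, ∃ z, z ≠ 0 ∧ π z = x) ∧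
    (∀ z w, z ≠ 0 → w ≠ 0 → (π z = π w ↔ ∃ k : ℕ, g^[k] z = w ∨ g^[k] w = z)) ∧
    ∀ z, z ≠ 0 → ContinuousAt π z

/-- `M` is homeomorphic to the standard `S¹ × S³` or to the standard twisted product, by a
homeomorphism which is a diffeomorphism off the point `p` -/
def StandardOff (p : M) : Prop :=
  ∃ (g : R4 → R4) (π : R4 → M), IsGen g ∧ IsQuot g π ∧ ∀ z, z ≠ 0 → π z ≠ p → LocDiff π z

end defs

/-- **Theorem.** -/
theorem result (M : Type) [TopologicalSpace M] [T2Space M] [CompactSpace M] [Nonempty M]
    [ChartedSpace R4 M] [IsManifold (𝓡 4) ∞ M] :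
    [∃ p : M, StandardOff p,
      ∀ p : M, StandardOff p,
      ∃ e : R4 → M, NonSeparating e ∧ CompactsEmbed (sph e)ᶜ,
      (∃ e : R4 → M, NonSeparating e) ∧
        ∀ e : R4 → M, NonSeparating e → CompactsEmbed (sph e)ᶜ].TFAE := by
  have hiter : ∀ (ρ : R4 ≃ₗᵢ[ℝ] R4) (z w : R4), (∃ k : ℤ, w = H827.HS.dk ρ k z) ↔
      ∃ k : ℕ, (H827.HS.dk ρ 1)^[k] z = w ∨ (H827.HS.dk ρ 1)^[k] w = z := by
    intro ρ z w
    have h1 : ∀ (k : ℕ) (z : R4), (H827.HS.dk ρ 1)^[k] z = H827.HS.dk ρ k z := by
      intro k
      induction k with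
      | zero =>
        intro z
        rw [iterate_zero, Nat.cast_zero, H827.HS.dk_zero]
        rfl
      | succ k ih =>
        intro z
        rw [iterate_succ_apply, ih, H827.HS.dk_add, Nat.cast_succ]
    constructor
    · rintro ⟨k, rfl⟩
      rcases Int.eq_nat_or_neg k with ⟨l, rfl | rfl⟩
      · exact ⟨l, Or.inl (h1 l z)⟩
      · refine ⟨l, Or.inr ?_⟩
        rw [h1, H827.HS.dk_neg']
    · rintro ⟨k, rfl | rfl⟩
      · exact ⟨k, h1 k z⟩
      · refine ⟨-k, ?_⟩
        rw [h1, H827.HS.dk_neg]
  have hto : ∀ (g : R4 → R4) (π : R4 → M) (p : M), IsGen g → IsQuot g π →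
      (∀ z, z ≠ 0 → π z ≠ p → LocDiff π z) → ∃ ρ : R4 ≃ₗᵢ[ℝ] R4, H827.HS.Std ρ π p := by
    intro g π p hg hq hπ
    obtain ⟨ρ, hρ⟩ : ∃ ρ : R4 ≃ₗᵢ[ℝ] R4, g = H827.HS.dk ρ 1 := by
      rcases hg with hg | hg
      · refine ⟨H827.HS.ri ∅, ?_⟩
        funext z
        ext i
        rw [hg, H827.HS.dk_one, H827.HS.ri_empty]
        rfl
      · refine ⟨H827.HS.ri {0}, ?_⟩
        funext z
        ext i
        rw [hg, H827.HS.dk_one]
        show _ = 2 * (H827.HS.ri {0} z : R4) i
        rw [H827.HS.ri_apply, H827.HS.RS_apply]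
        by_cases hi : i = 0
        · simp [hi]
        · simp [hi]
    obtain ⟨h1, h2, h3⟩ := hq
    refine ⟨ρ, h1, fun z w hz hw => ?_, h3, hπ⟩
    rw [h2 z w hz hw, hiter, hρ]
  have hcol : ∀ e : R4 → M, IsCollar e ↔ H827.HS.Nk e := fun e =>
    ⟨fun h => ⟨h.1, h.2⟩, fun h => ⟨h.inj, h.ld⟩⟩
  tfae_have 2 → 1 := fun h => ⟨Classical.arbitrary M, h _⟩
  tfae_have 1 → 2 := by
    rintro ⟨p, g, π, hg, hq, hπ⟩ p'
    obtain ⟨ρ, hS⟩ := hto g π p hg hq hπ
    have : PreconnectedSpace M := ⟨hS.top.preconnected (by norm_num)⟩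
    obtain ⟨κ, hκ, hκp, -⟩ := H827.LV.move_in (n := 4) (isOpen_univ (X := M)) (mem_univ p)
      (isPreconnected_univ.subset_connectedComponentIn (mem_univ p) subset_rfl (mem_univ p'))
    have hκc : Continuous κ := continuous_iff_continuousAt.2 fun x => (hκ.2 x).continuousAt
    refine ⟨g, fun z => κ (π z), hg, ⟨?_, ?_, ?_⟩, ?_⟩
    · intro x
      obtain ⟨y, rfl⟩ := hκ.1.2 x
      obtain ⟨z, hz, rfl⟩ := hq.1 y
      exact ⟨z, hz, rfl⟩
    · intro z w hz hw
      rw [← hq.2.1 z w hz hw]
      exact ⟨fun h => hκ.1.1 h, fun h => congrArg κ h⟩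
    · intro z hz
      exact hκc.continuousAt.comp (hq.2.2 z hz)
    · intro z hz hne
      have h1 : π z ≠ p := fun h => hne (by
        show κ (π z) = p'
        rw [h, hκp])
      exact Y522.LD.comp_fun (g := κ) (f := π) (hκ.2 _) (hπ z hz h1)
  tfae_have 1 → 4 := by
    rintro ⟨p, g, π, hg, hq, hπ⟩
    obtain ⟨ρ, hS⟩ := hto g π p hg hq hπ
    refine ⟨?_, ?_⟩
    · obtain ⟨e, he, hec⟩ := hS.exists_sphere (by norm_num)
      exact ⟨e, (hcol e).2 he, hec⟩
    · rintro e ⟨he, hec⟩ K hK hKe
      exact hS.emb_all (by norm_num) ((hcol e).1 he) hec.isPreconnected hK hKe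
  tfae_have 4 → 3 := by
    rintro ⟨⟨e, he⟩, h⟩
    exact ⟨e, he, h e he⟩
  tfae_have 3 → 1 := by
    rintro ⟨e, ⟨he, hec⟩, hemb⟩
    have he' := (hcol e).1 he
    let V : TopologicalSpace.Opens M := ⟨(sph e)ᶜ, (H827.HS.sphere_closed he').isOpen_compl⟩
    have : ConnectedSpace V := isConnected_iff_connectedSpace.1 hec
    obtain ⟨x₀⟩ : Nonempty V := inferInstance
    obtain ⟨S, π, p, hSS, hS⟩ := H827.HS.exists_pi (m := 3) (V := V) he' rfl x₀
      (fun K hK hKV => hemb K hK hKV) (i := 0) (j := 3) (by decide)
    refine ⟨p, H827.HS.dk (H827.HS.ri S) 1, π, ?_, ⟨hS.surj, ?_, hS.cont⟩, hS.ld⟩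
    · rcases hSS with rfl | rfl
      · left
        intro z i
        rw [H827.HS.dk_one, H827.HS.ri_empty]
        rfl
      · right
        intro z i
        rw [H827.HS.dk_one]
        show 2 * (H827.HS.ri {0} z : R4) i = _
        rw [H827.HS.ri_apply, H827.HS.RS_apply]
        by_cases hi : i = 0
        · simp [hi]
        · simp [hi]
    · intro z w hz hw
      rw [hS.fib z w hz hw, hiter]
  tfae_finish

end Pool.Agent.Results.MP_6db3ee_gt.SphereComplement
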