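import Pool.Agent.H827.HS.Flat

/-!
# Functions on smooth 4-manifolds homeomorphic to `S¹ × S³` whose regular levels are 3-spheres

The standard `S¹ × S³` is the quotient of `ℝ⁴ ∖ {0} ≅ ℝ × S³` by the group generated by `z ↦ 2 z`,
and the twisted product is the quotient of `ℝ⁴ ∖ {0}` by the group generated by
`(z₀, z₁, z₂, z₃) ↦ (-2 z₀, 2 z₁, 2 z₂, 2 z₃)` (the mapping torus of a reflection of `S³`).

Let `M` be a closed connected smooth 4-manifold. We show that the following are equivalent:

* `M` is standard off one point: `M` is one of the two quotients (as a topological manifold), such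
  that the projection is a local diffeomorphism off the preimages of one point `p` of `M` (so `M` is
  homeomorphic to `S¹ × S³` or to the twisted product by a homeomorphism which is a diffeomorphism
  off `p`); or the same for every point `p`;
* the first Betti number of `M` is one, and there is a `C^∞` function `F : M → ℝ` (no condition is
  imposed on its critical points: there may be uncountably many critical values, and the critical
  level sets may be arbitrary closed sets) such that the components of the level sets of all regular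
  values of `F` are diffeomorphic to `S³`, and every component of every level set of `F` has a
  neighbourhood which embeds smoothly in `ℝ⁴`;
* the first Betti number of `M` is one, and there is a continuous function such that a dense set of
  levels is regular and consists of smoothly embedded 3-spheres, and the components of all level
  sets have neighbourhoods which embed smoothly in `ℝ⁴`.

All manifolds homeomorphic to `S¹ × S³` or to the twisted product satisfy the condition on the Betti
number (this is a part of the theorem). So a smooth 4-manifold `M` homeomorphic to `S¹ × S³` or to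
the twisted product is standard, up to the insertion of a Schoenflies ball, if and only if it has
such a function (a sweepout by families of disjoint 3-spheres). The neighbourhoods of the level sets
embed in `ℝ⁴` in a way unrelated to `F`. A condition on the Betti number is needed: `S⁴` and the
connected sums of several copies of `S¹ × S³` have functions of this kind.

Outline of the proof. The circle map dual to a sphere jumps by one along the sphere. So if the first
Betti number is one, no two disjoint spheres have a connected complement. If all spherical level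
components separate, then `M` would be `S⁴` off a point, and all circle maps would lift (by the
methods of the hand-in `MP_126a0d_gt.SphericalLevels`). So some component `S` of a spherical level
does not separate `M`. We construct a collar of `S` on which `F` is monotone (the inverse of the
parametrization extends to a smooth map `M → ℝ⁴` by a partition of unity, since its local extensions
form convex sets). In the open manifold `M ∖ S` all the other spheres separate, and cutting along
finitely many of them gives pieces which lie in slabs which embed in `ℝ⁴`. Compact subsets of the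
pieces are glued along the spheres one by one; this is always possible, since a compact subset of an
open connected manifold can be moved off a point of the sphere. So all compact subsets of `M ∖ S`
embed in `ℝ⁴`, and `M` is standard off a point by `MP_6db3ee_gt.SphereComplement`. Conversely, the
function `cos (2 π log₂ ‖z‖)` descends to standard manifolds; if `p` lies on the maximal level, then
the function can be made smooth at `p` by a homeomorphism which is flat at `p`.
-/

set_option autoImplicit false

open Set Filter Topology Metric Function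
open scoped Manifold ContDiff

noncomputable section

namespace Pool.Agent.Results.MP_6db3ee_gt.SphericalLevels

/-- `ℝ⁴` -/
abbrev R4 : Type := EuclideanSpace ℝ (Fin 4)

/-- `ℝ³` -/
abbrev R3 : Type := EuclideanSpace ℝ (Fin 3)

/-- the standard sphere `S³` -/
abbrev S3 : Type := sphere (0 : EuclideanSpace ℝ (Fin (3 + 1))) 1

section defs

variable {M N : Type} [TopologicalSpace M] [ChartedSpace R4 M] [TopologicalSpace N]
  [ChartedSpace R4 N]

/-- `f` is a local diffeomorphism (of class `C^∞`) at `x` -/
def LocDiff (f : M → N) (x : M) : Prop := IsLocalDiffeomorphAt (𝓡 4) (𝓡 4) ∞ f x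

/-- a neighbourhood of `K` embeds smoothly in `ℝ⁴` -/
def EmbedsNear (K : Set M) : Prop :=
  ∃ (U : Set M) (k : M → R4), IsOpen U ∧ K ⊆ U ∧ InjOn k U ∧ ∀ x ∈ U, LocDiff k x

/-- the real function `F` is of class `C^∞` at `x` -/
def SmoothFnAt (F : M → ℝ) (x : M) : Prop := ContMDiffAt (𝓡 4) 𝓘(ℝ, ℝ) ∞ F x

/-- the derivative of the real function `F` at `x` -/
def diffFn (F : M → ℝ) (x : M) : R4 →L[ℝ] ℝ := mfderiv (𝓡 4) 𝓘(ℝ, ℝ) F x

/-- `x` is a critical point of `F` -/
def CritPt (F : M → ℝ) (x : M) : Prop := diffFn F x = 0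

/-- the map `σ` of a 3-manifold is of class `C^∞` -/
def Smooth3 {S : Type} [TopologicalSpace S] [ChartedSpace R3 S] (σ : S → M) : Prop :=
  ContMDiff (𝓡 3) (𝓡 4) ∞ σ

/-- the derivative of the map `σ` of a 3-manifold at `p` -/
def diff3 {S : Type} [TopologicalSpace S] [ChartedSpace R3 S] (σ : S → M) (p : S) :
    R3 →L[ℝ] R4 := mfderiv (𝓡 3) (𝓡 4) σ p

/-- `σ` is of class `C^∞`, and an injective immersion -/
def InjImm {S : Type} [TopologicalSpace S] [ChartedSpace R3 S] (σ : S → M) : Prop :=
  Smooth3 σ ∧ Injective σ ∧ ∀ p, Injective (diff3 σ p)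

/-- `S` is a smoothly embedded 3-sphere -/
def IsSmoothSphere (S : Set M) : Prop := ∃ σ : S3 → M, InjImm σ ∧ range σ = S

/-- `t` is a regular value of `F` -/
def RegularValue (F : M → ℝ) (t : ℝ) : Prop := ∀ x, F x = t → ¬ CritPt F x

/-- `F` is of class `C^∞` near the level set of `t`, `t` is a regular value, and all the components
of the level set are smoothly embedded 3-spheres -/
def SphericalLevel (F : M → ℝ) (t : ℝ) : Prop :=
  ∀ x, F x = t → (∀ᶠ z in 𝓝 x, SmoothFnAt F z) ∧ ¬ CritPt F x ∧
    IsSmoothSphere (connectedComponentIn (F ⁻¹' {t}) x)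

/-- `g` is the map `z ↦ 2 z` or the map `(z₀, z₁, z₂, z₃) ↦ (-2 z₀, 2 z₁, 2 z₂, 2 z₃)` -/
def IsGen (g : R4 → R4) : Prop :=
  (∀ z i, g z i = 2 * z i) ∨ ∀ z i, g z i = if i = 0 then -(2 * z i) else 2 * z i

end defs

/-- `π` is the quotient map of `ℝ⁴ ∖ {0}` by the group generated by `g` -/
def IsQuot {M : Type} [TopologicalSpace M] (g : R4 → R4) (π : R4 → M) : Prop :=
  (∀ x, ∃ z, z ≠ 0 ∧ π z = x) ∧
    (∀ z w, z ≠ 0 → w ≠ 0 → (π z = π w ↔ ∃ k : ℕ, g^[k] z = w ∨ g^[k] w = z)) ∧
    ∀ z, z ≠ 0 → ContinuousAt π z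

/-- `M` is homeomorphic to `S¹ × S³` or to the twisted product -/
def HomeoStandard (M : Type) [TopologicalSpace M] : Prop :=
  ∃ (g : R4 → R4) (π : R4 → M), IsGen g ∧ IsQuot g π

/-- `M` is homeomorphic to the standard `S¹ × S³` or to the standard twisted product, by a
homeomorphism which is a diffeomorphism off the point `p` -/
def StandardOff {M : Type} [TopologicalSpace M] [ChartedSpace R4 M] (p : M) : Prop :=
  ∃ (g : R4 → R4) (π : R4 → M), IsGen g ∧ IsQuot g π ∧ ∀ z, z ≠ 0 → π z ≠ p → LocDiff π z

/-- the map `θ` to the circle `ℝ/ℤ` lifts to `ℝ` -/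
def Lifts {M : Type} [TopologicalSpace M] (θ : M → AddCircle (1 : ℝ)) : Prop :=
  ∃ r : M → ℝ, Continuous r ∧ ∀ x, ((r x : ℝ) : AddCircle (1 : ℝ)) = θ x

/-- The first Betti number of `M` is one: the group `H¹(M; ℤ)` of the maps to the circle modulo the
maps which lift to `ℝ` is not trivial, and any two of its elements are linearly dependent. -/
def BettiOne (M : Type) [TopologicalSpace M] : Prop :=
  (∃ θ : M → AddCircle (1 : ℝ), Continuous θ ∧ ¬ Lifts θ) ∧
    ∀ θ₁ θ₂ : M → AddCircle (1 : ℝ), Continuous θ₁ → Continuous θ₂ →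
      ∃ a b : ℤ, (a ≠ 0 ∨ b ≠ 0) ∧ Lifts fun x => a • θ₁ x + b • θ₂ x

/-- There is a `C^∞` function such that the components of the level sets of all regular values are
smoothly embedded 3-spheres, and the components of all level sets have neighbourhoods which embed in
`ℝ⁴`. -/
def SpheresFn (M : Type) [TopologicalSpace M] [ChartedSpace R4 M] : Prop :=
  ∃ F : M → ℝ, (∀ x, SmoothFnAt F x) ∧ (∀ t, RegularValue F t → SphericalLevel F t) ∧
    ∀ x, EmbedsNear (connectedComponentIn (F ⁻¹' {F x}) x)

/-- There is a continuous function such that a dense set of levels is regular with smoothly embedded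
3-spheres as components, and the components of all level sets have neighbourhoods which embed in
`ℝ⁴`. -/
def SpheresFnC (M : Type) [TopologicalSpace M] [ChartedSpace R4 M] : Prop :=
  ∃ F : M → ℝ, Continuous F ∧ Dense {t | SphericalLevel F t} ∧
    ∀ x, EmbedsNear (connectedComponentIn (F ⁻¹' {F x}) x)

/-- **Theorem.** -/
theorem result (M : Type) [TopologicalSpace M] [T2Space M] [CompactSpace M] [ConnectedSpace M]
    [ChartedSpace R4 M] [IsManifold (𝓡 4) ∞ M] :
    (HomeoStandard M → BettiOne M) ∧
    [∃ p : M, StandardOff p, ∀ p : M, StandardOff p, BettiOne M ∧ SpheresFn M,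
      BettiOne M ∧ SpheresFnC M].TFAE := by
  have hσc : SecondCountableTopology M := ChartedSpace.secondCountable_of_sigmaCompact R4 M
  have hiter : ∀ (ρ : R4 ≃ₗᵢ[ℝ] R4) (z w : R4), (∃ k : ℤ, w = H827.HS.dk ρ k z) ↔
      ∃ k : ℕ, (H827.HS.dk ρ 1)^[k] z = w ∨ (H827.HS.dk ρ 1)^[k] w = z := by
    intro ρ z w
    have h1 : ∀ (k : ℕ) (z : R4), (H827.HS.dk ρ 1)^[k] z = H827.HS.dk ρ k z := by
      intro k
      induction k with
      | zero =>
        intro z
        rw [iterate_zero, Nat.cast_zero, H827.HS.dk_zero]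
        rfl
      | succ k ih =>
        intro z
        rw [iterate_succ_apply, ih, H827.HS.dk_add, Nat.cast_succ]
    constructor
    · rintro ⟨k, rfl⟩
      rcases Int.eq_nat_or_neg k with ⟨l, rfl | rfl⟩
      · exact ⟨l, Or.inl (h1 l z)⟩
      · refine ⟨l, Or.inr ?_⟩
        rw [h1, H827.HS.dk_neg']
    · rintro ⟨k, rfl | rfl⟩
      · exact ⟨k, h1 k z⟩
      · refine ⟨-k, ?_⟩
        rw [h1, H827.HS.dk_neg]
  have hgen : ∀ g : R4 → R4, IsGen g → ∃ ρ : R4 ≃ₗᵢ[ℝ] R4, g = H827.HS.dk ρ 1 := by
    intro g hg
    rcases hg with hg | hg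
    · refine ⟨H827.HS.ri ∅, ?_⟩
      funext z
      ext i
      rw [hg, H827.HS.dk_one, H827.HS.ri_empty]
      rfl
    · refine ⟨H827.HS.ri {0}, ?_⟩
      funext z
      ext i
      rw [hg, H827.HS.dk_one]
      show _ = 2 * (H827.HS.ri {0} z : R4) i
      rw [H827.HS.ri_apply, H827.HS.RS_apply]
      by_cases hi : i = 0
      · simp [hi]
      · simp [hi]
  have htop : ∀ (g : R4 → R4) (π : R4 → M), IsGen g → IsQuot g π →
      ∃ ρ : R4 ≃ₗᵢ[ℝ] R4, H827.HS.TStd ρ π := by
    intro g π hg hq
    obtain ⟨ρ, hρ⟩ := hgen g hg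
    obtain ⟨h1, h2, h3⟩ := hq
    refine ⟨ρ, h1, fun z w hz hw => ?_, h3⟩
    rw [h2 z w hz hw, hiter, hρ]
  have hto : ∀ (g : R4 → R4) (π : R4 → M) (p : M), IsGen g → IsQuot g π →
      (∀ z, z ≠ 0 → π z ≠ p → LocDiff π z) → ∃ ρ : R4 ≃ₗᵢ[ℝ] R4, H827.HS.Std ρ π p := by
    intro g π p hg hq hπ
    obtain ⟨ρ, h⟩ := htop g π hg hq
    exact ⟨ρ, h.surj, h.fib, h.cont, hπ⟩
  have hbetti : ∀ (ρ : R4 ≃ₗᵢ[ℝ] R4) (π : R4 → M), H827.HS.TStd ρ π → BettiOne M := fun ρ π h =>
    ⟨h.not_lift (by norm_num) (by norm_num), h.rankOne (by norm_num)⟩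
  refine ⟨?_, ?_⟩
  · rintro ⟨g, π, hg, hq⟩
    obtain ⟨ρ, h⟩ := htop g π hg hq
    exact hbetti ρ π h
  have hlev : ∀ (F : M → ℝ) (t : ℝ), SphericalLevel F t ↔ H827.LV.SphLev 3 F t := by
    intro F t
    constructor
    · intro h x hx
      obtain ⟨h1, h2, σ, hσ, hr⟩ := h x hx
      exact ⟨h1, h2, σ, hσ.1, hσ.2.1, hσ.2.2, hr⟩
    · intro h x hx
      obtain ⟨h1, h2, σ, h3, h4, h5, hr⟩ := h x hx
      exact ⟨h1, h2, σ, ⟨h3, h4, h5⟩, hr⟩
  tfae_have 2 → 1 := fun h => ⟨Classical.arbitrary M, h _⟩
  tfae_have 1 → 2 := by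
    rintro ⟨p, g, π, hg, hq, hπ⟩ p'
    obtain ⟨κ, hκ, hκp, -⟩ := H827.LV.move_in (n := 4) (isOpen_univ (X := M)) (mem_univ p)
      (isPreconnected_univ.subset_connectedComponentIn (mem_univ p) subset_rfl (mem_univ p'))
    have hκc : Continuous κ := continuous_iff_continuousAt.2 fun x => (hκ.2 x).continuousAt
    refine ⟨g, fun z => κ (π z), hg, ⟨?_, ?_, ?_⟩, ?_⟩
    · intro x
      obtain ⟨y, rfl⟩ := hκ.1.2 x
      obtain ⟨z, hz, rfl⟩ := hq.1 y
      exact ⟨z, hz, rfl⟩
    · intro z w hz hw
      rw [← hq.2.1 z w hz hw]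
      exact ⟨fun h => hκ.1.1 h, fun h => congrArg κ h⟩
    · intro z hz
      exact hκc.continuousAt.comp (hq.2.2 z hz)
    · intro z hz hne
      have h1 : π z ≠ p := fun h => hne (by
        show κ (π z) = p'
        rw [h, hκp])
      exact Y522.LD.comp_fun (g := κ) (f := π) (hκ.2 _) (hπ z hz h1)
  tfae_have 1 → 3 := by
    rintro ⟨p, g, π, hg, hq, hπ⟩
    obtain ⟨ρ, hS⟩ := hto g π p hg hq hπ
    refine ⟨hbetti ρ π hS.top, ?_⟩
    obtain ⟨F, f1, f2, f3⟩ := H827.HS.Std.exists_fn hS
    exact ⟨F, fun x => f1 x, fun t ht => (hlev F t).2 (f2 t ht), f3⟩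
  tfae_have 3 → 4 := by
    rintro ⟨hb, F, h1, h2, h3⟩
    have hF : ContMDiff (𝓡 4) 𝓘(ℝ, ℝ) ∞ F := fun x => h1 x
    refine ⟨hb, F, hF.continuous, ?_, h3⟩
    simp only [hlev]
    exact H827.LV.dense_of_smooth (m := 3) hF fun t ht => (hlev F t).1 (h2 t ht)
  tfae_have 4 → 1 := by
    rintro ⟨hb, F, h1, h2, h3⟩
    simp only [hlev] at h2
    obtain ⟨S, π, p, hSS, hS⟩ := H827.HS.std_of_fn hb.2 hb.1 h1 h3 h2
    refine ⟨p, H827.HS.dk (H827.HS.ri S) 1, π, ?_, ⟨hS.surj, ?_, hS.cont⟩, hS.ld⟩
    · rcases hSS with rfl | rfl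
      · left
        intro z i
        rw [H827.HS.dk_one, H827.HS.ri_empty]
        rfl
      · right
        intro z i
        rw [H827.HS.dk_one]
        show 2 * (H827.HS.ri {0} z : R4) i = _
        rw [H827.HS.ri_apply, H827.HS.RS_apply]
        by_cases hi : i = 0
        · simp [hi]
        · simp [hi]
    · intro z w hz hw
      rw [hS.fib z w hz hw, hiter]
  tfae_finish

end Pool.Agent.Results.MP_6db3ee_gt.SphericalLevels
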